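import Pool.Agent.U104.AT.Sep2

set_option autoImplicit false

/-!
# Free alternative algebras are not separated

Let `Φ` be a commutative ring in which `6` is not nilpotent (for example the ring of integers, or a field
of characteristic different from `2` and `3`) and let `X` have at least nine elements. Then in the free
alternative `Φ`-algebra on `X` the intersection of the associator ideal `D` and of the largest ideal `U`
contained in the nucleus is not zero. The argument: for a nuclear element `n` of an alternative algebra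
the element `h = [n, t] (p, q, r)` is nuclear and alternating in `t, p, q, r`; the product
`h (a, b, c)` is alternating in all its seven arguments and invariant under the exchange of the two
triples, so `2 h (a, b, c) = 0`; the nuclear elements `x` with `x (A, A, A) = 0` form an ideal. So
`2 h` is in `D ∩ U`. By a theorem of the starting library (the ideal generated by the commutators
`[n, t]` is not contained in the nucleus; witness: an alternative superalgebra) `2 h` is not zero for
a certain nuclear `n`.

`FreeAlt`, `nucleus`, `Dideal`, `Uideal` are defined in `Pool/Agent/Helper805/Nuc/Free.lean`.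
-/

namespace Pool.Agent.Results.MP_c4e11e_al.NotSeparated

open Pool.Agent.Helper805.Nuc.Free

/-- (1) If `6` is not nilpotent in `Φ` and `X` is infinite (or has at least nine elements) then
`D ∩ U ≠ 0` in the free alternative `Φ`-algebra on `X`. (2) If `6 c` is nilpotent only for `c = 0`, and
`X` is infinite, then `D ∩ U` contains a family indexed by `X` which is linearly independent over `Φ`.
(3) For every alternative algebra `A` over a commutative ring and all `n` in the nucleus, `t, p, q, r` in
`A` the element `2 [n, t] (p, q, r)` is in `D ∩ U`. -/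
theorem result :
    (∀ (Φ : Type) [CommRing Φ], ¬ IsNilpotent (6 : Φ) → ∀ X : Type,
      (Infinite X ∨ Nonempty (Fin 9 ↪ X)) →
        Dideal Φ (FreeAlt Φ X) ⊓ Uideal Φ (FreeAlt Φ X) ≠ ⊥) ∧
    (∀ (Φ : Type) [CommRing Φ], (∀ c : Φ, IsNilpotent (6 * c) → c = 0) → ∀ (X : Type) [Infinite X],
      ∃ z : X → FreeAlt Φ X, (∀ x, z x ∈ Dideal Φ (FreeAlt Φ X) ⊓ Uideal Φ (FreeAlt Φ X)) ∧
        LinearIndependent Φ z) ∧
    (∀ (Φ : Type) [CommRing Φ] (A : Type) [NonUnitalNonAssocRing A] [Module Φ A]
      [IsScalarTower Φ A A] [SMulCommClass Φ A A],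
      (∀ a b : A, (a * a) * b = a * (a * b)) → (∀ a b : A, (b * a) * a = b * (a * a)) →
      ∀ n ∈ nucleus Φ A, ∀ t p q r : A,
        2 • ((n * t - t * n) * ((p * q) * r - p * (q * r))) ∈ Dideal Φ A ⊓ Uideal Φ A) := by
  refine ⟨?_, ?_, ?_⟩
  · intro Φ _ h6 X hX h
    have hX9 : Nonempty (Fin 9 ↪ X) := by
      rcases hX with hX | hX
      · obtain ⟨e⟩ := Pool.Agent.Y850.ZN.exists_emb X
        obtain ⟨x⟩ : Nonempty X := inferInstance
        exact ⟨⟨fun i => e (x, i), fun a b hab => (Prod.mk.inj (e.injective hab)).2⟩⟩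
      · exact hX
    obtain ⟨ι⟩ := hX9
    obtain ⟨z, hz, hz0⟩ := U104.Sep.exists_ne Φ h6 X ι
    rw [h] at hz
    exact hz0 ((Submodule.mem_bot Φ).1 hz)
  · intro Φ _ hΦ X _
    obtain ⟨e⟩ := Pool.Agent.Y850.ZN.exists_emb X
    exact U104.Sep.exists_indep Φ hΦ X X e
  · intro Φ _ A _ _ _ _ h1 h2 n hn t p q r
    have hA : Pool.Agent.Helper805.Nuc.Tens.IsAlt A := ⟨h1, h2⟩
    have hn' := (Pool.Agent.Helper805.Nuc.Alt.mem_nucleus hA).1 hn
    rw [two_smul]
    have h3 := U104.Sep.two_G_mem hA (Φ := Φ) hn' t p q r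
    refine ⟨?_, (le_sSup ⟨U104.Sep.W_ideal hA, U104.Sep.W_le hA⟩ :
      U104.Sep.W Φ A ≤ Uideal Φ A) h3⟩
    have h5 : (p * q) * r - p * (q * r) ∈ Dideal Φ A :=
      Pool.Agent.Y850.ZN.sub_idealGen {z : A | ∃ a b c : A, z = (a * b) * c - a * (b * c)} ⟨p, q, r, rfl⟩
    have h4 : (n * t - t * n) * ((p * q) * r - p * (q * r)) ∈ Dideal Φ A :=
      (Pool.Agent.Y850.ZN.isIdeal_idealGen _ _ _ h5).1
    exact Submodule.add_mem _ h4 h4

end Pool.Agent.Results.MP_c4e11e_al.NotSeparated
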